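import Pool.Agent.H30.FA.TC

/-!
# The binomial formula on cycles
-/

set_option autoImplicit false

open Topology Filter

namespace Pool.Agent.H51.FA

noncomputable section

open Pool.Agent.H59 Pool.Agent.H48.FR Pool.Agent.H58.FL Pool.Agent.H30.FA

theorem PL_lin {X : Type} (y v : X → X → X → ℝ) (r : ℝ) (M : List (X → X → X → ℝ)) :
    ∀ (L : List (X → X → X → ℝ)) (x : ℕ → X),
      PL (L ++ (fun a b c => y a b c + r * v a b c) :: M) x =
        PL (L ++ y :: M) x + r * PL (L ++ v :: M) x := by
  intro L
  induction L with
  | nil =>
    intro x
    simp only [List.nil_append, Pool.Agent.H58.FL.PL, cup, c2]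
    ring
  | cons g L ih =>
    intro x
    simp only [List.cons_append, Pool.Agent.H58.FL.PL, cup]
    rw [ih (sh 2 x)]
    ring

theorem pascal_sum (r : ℝ) (l : ℕ) (F : ℕ → ℝ) :
    ∑ j ∈ Finset.range (l + 2), ((l + 1).choose j : ℝ) * r ^ (l + 1 - j) * F j =
      ∑ j ∈ Finset.range (l + 1), (l.choose j : ℝ) * r ^ (l - j) * F (j + 1) +
        r * ∑ j ∈ Finset.range (l + 1), (l.choose j : ℝ) * r ^ (l - j) * F j := by
  have h1 : r * ∑ j ∈ Finset.range (l + 1), (l.choose j : ℝ) * r ^ (l - j) * F j =
      ∑ j ∈ Finset.range (l + 2), (l.choose j : ℝ) * r ^ (l + 1 - j) * F j := by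
    rw [Finset.sum_range_succ _ (l + 1), Nat.choose_succ_self, Nat.cast_zero, zero_mul, zero_mul,
      add_zero, Finset.mul_sum]
    apply Finset.sum_congr rfl
    intro j hj
    have hj' : l + 1 - j = (l - j) + 1 := by
      have := Finset.mem_range.1 hj
      omega
    rw [hj', pow_succ]
    ring
  rw [h1, Finset.sum_range_succ' _ (l + 1), Finset.sum_range_succ' _ (l + 1), ← add_assoc,
    ← Finset.sum_add_distrib, Nat.choose_zero_right, Nat.choose_zero_right]
  congr 1
  apply Finset.sum_congr rfl
  intro j _
  rw [Nat.choose_succ_succ, Nat.cast_add, show l + 1 - (j + 1) = l - j from by omega]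
  ring

theorem pf_BNX (hPRM : T_PRM) (hEVL : T_EVL) (_hLOW : T_LOW) : T_BNX := by
  intro X K hK y v r hy hv n z hz hbz
  have key : ∀ (l : ℕ) (L : List (X → X → X → ℝ)), (∀ g ∈ L, Cl2 K g) → L.length + l = n →
      ev (2 * n) (PL (L ++ List.replicate l (fun a b c => y a b c + r * v a b c))) z =
        ∑ j ∈ Finset.range (l + 1), (l.choose j : ℝ) * r ^ (l - j) *
          ev (2 * n) (PL (L ++ (List.replicate j y ++ List.replicate (l - j) v))) z := by
    intro l
    induction l with
    | zero =>
      intro L _ _
      simp
    | succ l ih =>
      intro L hL hn
      have e0 : PL (L ++ List.replicate (l + 1) (fun a b c => y a b c + r * v a b c)) =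
          fun x => PL (L ++ y :: List.replicate l (fun a b c => y a b c + r * v a b c)) x +
            r * PL (L ++ v :: List.replicate l (fun a b c => y a b c + r * v a b c)) x := by
        funext x
        rw [List.replicate_succ]
        exact PL_lin y v r _ L x
      rw [e0, (hEVL X (2 * n)).2.2.1]
      have hLy : ∀ g ∈ L ++ [y], Cl2 K g := by
        intro g hg
        rcases List.mem_append.1 hg with h | h
        · exact hL g h
        · rw [List.mem_singleton.1 h]
          exact hy
      have hLv : ∀ g ∈ L ++ [v], Cl2 K g := by
        intro g hg
        rcases List.mem_append.1 hg with h | h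
        · exact hL g h
        · rw [List.mem_singleton.1 h]
          exact hv
      have e1 := ih (L ++ [y]) hLy (by
        rw [List.length_append, List.length_singleton]
        omega)
      have e2 := ih (L ++ [v]) hLv (by
        rw [List.length_append, List.length_singleton]
        omega)
      rw [List.append_assoc, List.singleton_append] at e1 e2
      rw [e1, e2, pascal_sum r l
        (fun j => ev (2 * n) (PL (L ++ (List.replicate j y ++ List.replicate (l + 1 - j) v))) z)]
      congr 1
      · apply Finset.sum_congr rfl
        intro j _
        rw [show l + 1 - (j + 1) = l - j from by omega, List.append_assoc, List.replicate_succ]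
        rfl
      · congr 1
        apply Finset.sum_congr rfl
        intro j hj
        congr 1
        have hj' : j ≤ l := by
          have := Finset.mem_range.1 hj
          omega
        apply hPRM X K hK n
        · rw [List.append_assoc]
          apply List.Perm.append_left
          rw [show l + 1 - j = (l - j) + 1 from by omega, List.replicate_succ]
          rw [List.singleton_append]
          exact List.perm_middle.symm
        · simp only [List.length_append, List.length_singleton, List.length_replicate]
          omega
        · intro g hg
          rcases List.mem_append.1 hg with h | h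
          · exact hLv g h
          · rcases List.mem_append.1 h with h' | h'
            · rw [List.eq_of_mem_replicate h']
              exact hy
            · rw [List.eq_of_mem_replicate h']
              exact hv
        · exact hz
        · exact hbz
  have h := key n [] (by
    intro g hg
    exact absurd hg List.not_mem_nil) (by simp)
  simpa only [List.nil_append] using h

end

end Pool.Agent.H51.FA
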